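import Pool.Agent.Q98.LC.Geo

/-!
# A complete graph on four vertices at a free bend makes a barrier
-/

namespace Pool.Agent.Q98.LC

variable {V : Type} {S : V → LShape}

/-- `v` and the three shapes of `B` are in contact pairwise, and `v` touches none of `B`. -/
structure Block (S : V → LShape) (v : V) (B : Finset V) : Prop where
  nc : NonCrossing S
  card : B.card = 3
  notMem : v ∉ B
  adj : ∀ u ∈ B, ∀ w ∈ B, u ≠ w → (TH S u w ∨ TV S u w) ∨ (TH S w u ∨ TV S w u)
  on : ∀ u ∈ B, TH S u v ∨ TV S u v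

lemma Block.swap {v : V} {B : Finset V} (h : Block S v B) : Block (fun v => (S v).swap) v B := by
  refine ⟨swap_NC h.nc, h.card, h.notMem, ?_, ?_⟩
  · intro u hu w hw huw
    have := h.adj u hu w hw huw
    simp only [swap_TH, swap_TV]
    tauto
  · intro u hu
    have := h.on u hu
    simp only [swap_TH, swap_TV]
    tauto

lemma Block.ne {v : V} {B : Finset V} (h : Block S v B) {u : V} (hu : u ∈ B) : u ≠ v := by
  rintro rfl
  exact h.notMem hu

/-- Every shape of the block touches another one of the block. -/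
lemma Block.other {v : V} {B : Finset V} (h : Block S v B) {u : V} (hu : u ∈ B) :
    ∃ w ∈ B, w ≠ u ∧ (TH S u w ∨ TV S u w) := by
  classical
  by_contra hcon
  push Not at hcon
  have hc : (B.erase u).card = 2 := by rw [Finset.card_erase_of_mem hu, h.card]
  obtain ⟨b, c, hbc, hB⟩ := Finset.card_eq_two.1 hc
  have hb : b ∈ B ∧ b ≠ u := by
    have : b ∈ B.erase u := by rw [hB]; simp
    rw [Finset.mem_erase] at this
    exact ⟨this.2, this.1⟩
  have hcc : c ∈ B ∧ c ≠ u := by
    have : c ∈ B.erase u := by rw [hB]; simp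
    rw [Finset.mem_erase] at this
    exact ⟨this.2, this.1⟩
  -- each of `b`, `c` uses its ends for `v` and `u`
  have key : ∀ s ∈ B, s ≠ u → ∀ t ∈ B, t ≠ s → t ≠ u → ¬ (TH S s t ∨ TV S s t) := by
    intro s hs hsu t ht hts htu hst
    have h1 := h.on s hs
    have h2 := h.adj u hu s hs (Ne.symm hsu)
    have h3 := hcon s hs hsu
    have hsv := h.ne hs
    have hvu : v ≠ u := (h.ne hu).symm
    have hvt : v ≠ t := (h.ne ht).symm
    have h4 : TH S s u ∨ TV S s u := by tauto
    rcases hst with hst | hst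
    · have e1 : ¬ TH S s v := fun k => hvt (TH_unique h.nc hsv (Ne.symm hts) k hst)
      have e2 : ¬ TH S s u := fun k => htu (TH_unique h.nc (Ne.symm hts) hsu hst k)
      have e3 : TV S s v := by tauto
      have e4 : TV S s u := by tauto
      exact hvu (TV_unique h.nc hsv hsu e3 e4)
    · have e1 : ¬ TV S s v := fun k => hvt (TV_unique h.nc hsv (Ne.symm hts) k hst)
      have e2 : ¬ TV S s u := fun k => htu (TV_unique h.nc (Ne.symm hts) hsu hst k)
      have e3 : TH S s v := by tauto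
      have e4 : TH S s u := by tauto
      exact hvu (TH_unique h.nc hsv hsu e3 e4)
  rcases h.adj b hb.1 c hcc.1 hbc with k | k
  · exact key b hb.1 hb.2 c hcc.1 hbc.symm hcc.2 k
  · exact key c hcc.1 hcc.2 b hb.1 hbc hb.2 k

/-- The two types. -/
lemma Block.types {v : V} {B : Finset V} (h : Block S v B) {u : V} (hu : u ∈ B) :
    (TH S u v ∧ ∃ w ∈ B, w ≠ u ∧ TV S u w) ∨ (TV S u v ∧ ∃ w ∈ B, w ≠ u ∧ TH S u w) := by
  obtain ⟨w, hw, hwu, k⟩ := h.other hu
  have huv := h.ne hu
  have hwv := h.ne hw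
  rcases h.on u hu with h1 | h1
  · left
    refine ⟨h1, w, hw, hwu, ?_⟩
    rcases k with k | k
    · exact absurd (TH_unique h.nc huv (Ne.symm hwu) h1 k) (Ne.symm hwv)
    · exact k
  · right
    refine ⟨h1, w, hw, hwu, ?_⟩
    rcases k with k | k
    · exact k
    · exact absurd (TV_unique h.nc huv (Ne.symm hwu) h1 k) (Ne.symm hwv)

lemma Block.nonempty {v : V} {B : Finset V} (h : Block S v B) : B.Nonempty := by
  rw [← Finset.card_pos, h.card]; norm_num

/-- Coordinates of the types, when `v` has its bend in the lower left corner. -/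
lemma Block.coord {v : V} {B : Finset V} (h : Block S v B) (hx : (S v).x < (S v).hx)
    (hy : (S v).y < (S v).vy) {u : V} (hu : u ∈ B) :
    (TH S u v ∧ (S u).hx = (S v).x ∧ (S v).y < (S u).y ∧ (S u).y < (S v).vy ∧
      ∃ w ∈ B, w ≠ u ∧ (S w).y = (S u).vy ∧
        (((S w).x < (S u).x ∧ (S u).x < (S w).hx) ∨ ((S w).hx < (S u).x ∧ (S u).x < (S w).x))) ∨
    (TV S u v ∧ (S u).vy = (S v).y ∧ (S v).x < (S u).x ∧ (S u).x < (S v).hx ∧
      ∃ w ∈ B, w ≠ u ∧ (S w).x = (S u).hx ∧
        (((S w).y < (S u).y ∧ (S u).y < (S w).vy) ∨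
          ((S w).vy < (S u).y ∧ (S u).y < (S w).y))) := by
  rcases h.types hu with ⟨h1, w, hw, hwu, h2⟩ | ⟨h1, w, hw, hwu, h2⟩
  · left
    obtain ⟨a1, a2⟩ := TH_coord h.nc (h.ne hu) h1
    obtain ⟨b1, b2⟩ := TV_coord h.nc (Ne.symm hwu) h2
    have a3 : (S v).y < (S u).y ∧ (S u).y < (S v).vy := by
      rcases a2 with a2 | a2
      · exact a2
      · linarith [a2.1, a2.2]
    exact ⟨h1, a1.symm, a3.1, a3.2, w, hw, hwu, b1, b2⟩
  · right
    obtain ⟨a1, a2⟩ := TV_coord h.nc (h.ne hu) h1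
    obtain ⟨b1, b2⟩ := TH_coord h.nc (Ne.symm hwu) h2
    have a3 : (S v).x < (S u).x ∧ (S u).x < (S v).hx := by
      rcases a2 with a2 | a2
      · exact a2
      · linarith [a2.1, a2.2]
    exact ⟨h1, a1.symm, a3.1, a3.2, w, hw, hwu, b1, b2⟩

/-- All bends of the block are to the right of `v`. -/
lemma Block.right {v : V} {B : Finset V} (h : Block S v B) (hx : (S v).x < (S v).hx)
    (hy : (S v).y < (S v).vy) {u : V} (hu : u ∈ B) : (S v).x < (S u).x := by
  obtain ⟨m, hm, hmin⟩ := Finset.exists_min_image B (fun u => (S u).x) h.nonempty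
  suffices hsuff : (S v).x < (S m).x from lt_of_lt_of_le hsuff (hmin u hu)
  by_contra hcon
  push Not at hcon
  rcases h.coord hx hy hm with ⟨-, a1, a2, a3, w, hw, hwu, b1, b2⟩ | ⟨-, a1, a2, a3, -⟩
  · have c1 : (S m).x ≤ (S w).x := hmin w hw
    rcases b2 with b2 | b2
    · linarith [b2.1]
    · rcases h.coord hx hy hw with ⟨-, d1, -⟩ | ⟨-, -, -, -, w', hw', -, d1, -⟩
      · linarith [b2.1]
      · have : (S m).x ≤ (S w').x := hmin w' hw'
        linarith [b2.1]
  · linarith

/-- The rightmost shape of the block. -/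
lemma Block.rho {v : V} {B : Finset V} (h : Block S v B) (hx : (S v).x < (S v).hx)
    (hy : (S v).y < (S v).vy) : ∃ r ∈ B, (∀ u ∈ B, (S u).x ≤ (S r).x) ∧ TV S r v ∧
      (S r).vy = (S v).y ∧ (S r).x < (S v).hx ∧ (S r).hx < (S r).x := by
  obtain ⟨r, hr, hmax⟩ := Finset.exists_max_image B (fun u => (S u).x) h.nonempty
  have hrx := h.right hx hy hr
  refine ⟨r, hr, hmax, ?_⟩
  rcases h.coord hx hy hr with ⟨-, a1, a2, a3, w, hw, hwu, b1, b2⟩ |
    ⟨a0, a1, a2, a3, w, hw, hwu, b1, b2⟩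
  · exfalso
    have c1 : (S w).x ≤ (S r).x := hmax w hw
    rcases b2 with b2 | b2
    · rcases h.coord hx hy hw with ⟨-, d1, -⟩ | ⟨-, -, -, -, w', hw', -, d1, -⟩
      · linarith [b2.2]
      · have : (S w').x ≤ (S r).x := hmax w' hw'
        linarith [b2.2]
    · linarith [b2.2]
  · refine ⟨a0, a1, a3, ?_⟩
    have : (S w).x ≤ (S r).x := hmax w hw
    rw [b1] at this
    exact lt_of_le_of_ne this (S r).hne

/-- The barrier of a block. -/
lemma Block.barrier {v : V} {B : Finset V} (h : Block S v B) (hx : (S v).x < (S v).hx)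
    (hy : (S v).y < (S v).vy) : ∃ r ∈ B, ∃ t ∈ B, r ≠ t ∧ Barrier (S v) (S r) (S t) := by
  obtain ⟨r, hr, r1, r2, r3, r4, r5⟩ := h.rho hx hy
  obtain ⟨t, ht, t1, t2, t3, t4, t5⟩ := Block.rho (S := fun v => (S v).swap) h.swap hy hx
  have hrx := h.right hx hy hr
  have htx := h.right hx hy ht
  have hry : (S v).y < (S r).y :=
    Block.right (S := fun v => (S v).swap) h.swap hy hx hr
  have t1' : ∀ u ∈ B, (S u).y ≤ (S t).y := t1
  have t2' : TH S t v := (swap_TV t v).1 t2
  have t3' : (S t).hx = (S v).x := t3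
  have t4' : (S t).y < (S v).vy := t4
  have t5' : (S t).vy < (S t).y := t5
  have hrv := h.ne hr
  have htv := h.ne ht
  have hrt : r ≠ t := by
    rintro rfl
    -- both ends touch `v`
    obtain ⟨w, hw, hwu, k⟩ := h.other hr
    have hwv := h.ne hw
    rcases k with k | k
    · exact hwv (TH_unique h.nc (Ne.symm hwu) hrv k t2')
    · exact hwv (TV_unique h.nc (Ne.symm hwu) hrv k r2)
  refine ⟨r, hr, t, ht, hrt, ?_⟩
  have a1 := r1 t ht
  have a2 := t1' r hr
  rcases h.adj r hr t ht hrt with (k | k) | (k | k)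
  · obtain ⟨b1, b2⟩ := TH_coord h.nc hrt k
    have b3 : (S t).vy < (S r).y ∧ (S r).y < (S t).y := by
      rcases b2 with b2 | b2
      · linarith [b2.1]
      · exact b2
    exact ⟨htx, by linarith, r4, hry, b3.2, t4', r3, t3', Or.inl ⟨b1.symm, b3.1⟩⟩
  · exact absurd (TV_unique h.nc hrt hrv k r2) htv
  · exact absurd (TH_unique h.nc (Ne.symm hrt) htv k t2') hrv
  · obtain ⟨b1, b2⟩ := TV_coord h.nc (Ne.symm hrt) k
    have b3 : (S r).hx < (S t).x ∧ (S t).x < (S r).x := by
      rcases b2 with b2 | b2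
      · linarith [b2.1]
      · exact b2
    exact ⟨htx, b3.2, r4, hry, by linarith, t4', r3, t3', Or.inr ⟨b1.symm, b3.1⟩⟩

end Pool.Agent.Q98.LC
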