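import Mathlib

/-!
# L-shapes and contact representations: definitions and the first facts
-/

namespace Pool.Agent.Q98.LC

/-- An L-shape: the bend is `(x, y)`, the horizontal segment ends in `(hx, y)`, the vertical one in
`(x, vy)`; both have positive length. -/
structure LShape where
  x : ℝ
  y : ℝ
  hx : ℝ
  vy : ℝ
  hne : hx ≠ x
  vne : vy ≠ y

namespace LShape

/-- The points of an L-shape. -/
def carrier (L : LShape) : Set (ℝ × ℝ) :=
  {p | (p.2 = L.y ∧ p.1 ∈ Set.uIcc L.x L.hx) ∨ (p.1 = L.x ∧ p.2 ∈ Set.uIcc L.y L.vy)}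

/-- The two end points. -/
def IsEnd (L : LShape) (p : ℝ × ℝ) : Prop := p = (L.hx, L.y) ∨ p = (L.x, L.vy)

/-- The bend. -/
def bend (L : LShape) : ℝ × ℝ := (L.x, L.y)

end LShape

/-- The end point `p` of `L` is a point of `M` other than its end points and its bend. -/
def Touch (L M : LShape) (p : ℝ × ℝ) : Prop :=
  L.IsEnd p ∧ p ∈ M.carrier ∧ ¬ M.IsEnd p ∧ p ≠ M.bend

/-- Every common point of two different shapes is a contact point. -/
def NonCrossing {V : Type} (S : V → LShape) : Prop :=
  ∀ u v, u ≠ v → ∀ p, p ∈ (S u).carrier → p ∈ (S v).carrier →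
    Touch (S u) (S v) p ∨ Touch (S v) (S u) p

/-- `S` is a contact representation of `G`. -/
def Represents {V : Type} (G : SimpleGraph V) (S : V → LShape) : Prop :=
  NonCrossing S ∧ ∀ u v, u ≠ v →
    (G.Adj u v ↔ ∃ p, Touch (S u) (S v) p ∨ Touch (S v) (S u) p)

/-- `G` is an L-contact graph. -/
def IsLContact {V : Type} (G : SimpleGraph V) : Prop := ∃ S : V → LShape, Represents G S

/-! ## The ends -/

variable {V : Type} {S : V → LShape}

lemma end_mem {L : LShape} {p : ℝ × ℝ} (h : L.IsEnd p) : p ∈ L.carrier := by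
  rcases h with rfl | rfl
  · exact Or.inl ⟨rfl, Set.right_mem_uIcc⟩
  · exact Or.inr ⟨rfl, Set.right_mem_uIcc⟩

/-- An end of one shape lies on at most one other shape. -/
lemma end_unique (hS : NonCrossing S) {u v w : V} (huv : u ≠ v) (huw : u ≠ w) (hvw : v ≠ w)
    {p : ℝ × ℝ} (hp : (S u).IsEnd p) (hv : p ∈ (S v).carrier) (hw : p ∈ (S w).carrier) : False := by
  have h1 := hS u v huv p (end_mem hp) hv
  have h2 := hS u w huw p (end_mem hp) hw
  have h3 := hS v w hvw p hv hw
  unfold Touch at h1 h2 h3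
  tauto

/-- Two shapes have no common end. -/
lemma end_end (hS : NonCrossing S) {u v : V} (huv : u ≠ v) {p : ℝ × ℝ} (hp : (S u).IsEnd p)
    (hq : (S v).IsEnd p) : False := by
  have h1 := hS u v huv p (end_mem hp) (end_mem hq)
  unfold Touch at h1
  tauto

/-- The horizontal end of `u` touches `v`. -/
def TH (S : V → LShape) (u v : V) : Prop := Touch (S u) (S v) ((S u).hx, (S u).y)

/-- The vertical end of `u` touches `v`. -/
def TV (S : V → LShape) (u v : V) : Prop := Touch (S u) (S v) ((S u).x, (S u).vy)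

lemma touch_iff {u v : V} (p : ℝ × ℝ) (h : Touch (S u) (S v) p) : TH S u v ∨ TV S u v := by
  have h' := h
  rcases h.1 with rfl | rfl
  · exact Or.inl h'
  · exact Or.inr h'

lemma TH_unique (hS : NonCrossing S) {u v w : V} (huv : u ≠ v) (huw : u ≠ w) (h1 : TH S u v)
    (h2 : TH S u w) : v = w := by
  by_contra h
  exact end_unique hS huv huw h h1.1 h1.2.1 h2.2.1

lemma TV_unique (hS : NonCrossing S) {u v w : V} (huv : u ≠ v) (huw : u ≠ w) (h1 : TV S u v)
    (h2 : TV S u w) : v = w := by
  by_contra h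
  exact end_unique hS huv huw h h1.1 h1.2.1 h2.2.1

/-- A horizontal end touches the inside of a vertical segment. -/
lemma TH_coord (hS : NonCrossing S) {u v : V} (huv : u ≠ v) (h : TH S u v) :
    (S v).x = (S u).hx ∧
      (((S v).y < (S u).y ∧ (S u).y < (S v).vy) ∨ ((S v).vy < (S u).y ∧ (S u).y < (S v).y)) := by
  obtain ⟨-, hm, hne, hnb⟩ := h
  have e1 : ¬ ((S u).hx = (S v).hx ∧ (S u).y = (S v).y) := by
    rintro ⟨h1, h2⟩; exact hne (Or.inl (by rw [h1, h2]))
  have e2 : ¬ ((S u).hx = (S v).x ∧ (S u).y = (S v).vy) := by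
    rintro ⟨h1, h2⟩; exact hne (Or.inr (by rw [h1, h2]))
  have e3 : ¬ ((S u).hx = (S v).x ∧ (S u).y = (S v).y) := by
    rintro ⟨h1, h2⟩; exact hnb (by rw [h1, h2]; rfl)
  rcases hm with ⟨hy, hx⟩ | ⟨hx, hy⟩
  · exfalso
    simp only at hy hx
    have a1 : (S u).hx ≠ (S v).hx := fun h => e1 ⟨h, hy⟩
    have a2 : (S u).hx ≠ (S v).x := fun h => e3 ⟨h, hy⟩
    -- a point of `u` near the end inside the horizontal segment of `v`
    obtain ⟨t, ht1, ht2, ht3, ht4⟩ : ∃ t : ℝ, t ∈ Set.uIcc (S u).x (S u).hx ∧ t ≠ (S u).hx ∧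
        t ∈ Set.uIcc (S v).x (S v).hx ∧ (t ≠ (S v).x ∧ t ≠ (S v).hx) := by
      have hun := (S u).hne
      rw [Set.mem_uIcc] at hx
      rcases lt_or_gt_of_ne hun with hlt | hlt
      · -- hx < x
        rcases hx with ⟨hx1, hx2⟩ | ⟨hx1, hx2⟩
        · have b1 : (S v).x < (S u).hx := lt_of_le_of_ne hx1 (Ne.symm a2)
          have b2 : (S u).hx < (S v).hx := lt_of_le_of_ne hx2 a1
          refine ⟨((S u).hx + min (S u).x (S v).hx) / 2, ?_, ?_, ?_, ?_, ?_⟩
          · rw [Set.mem_uIcc]; right
            constructor <;> cases min_cases (S u).x (S v).hx <;> linarith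
          · cases min_cases (S u).x (S v).hx <;> intro h <;> linarith
          · rw [Set.mem_uIcc]; left
            constructor <;> cases min_cases (S u).x (S v).hx <;> linarith
          · cases min_cases (S u).x (S v).hx <;> intro h <;> linarith
          · cases min_cases (S u).x (S v).hx <;> intro h <;> linarith
        · have b1 : (S v).hx < (S u).hx := lt_of_le_of_ne hx1 (Ne.symm a1)
          have b2 : (S u).hx < (S v).x := lt_of_le_of_ne hx2 a2
          refine ⟨((S u).hx + min (S u).x (S v).x) / 2, ?_, ?_, ?_, ?_, ?_⟩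
          · rw [Set.mem_uIcc]; right
            constructor <;> cases min_cases (S u).x (S v).x <;> linarith
          · cases min_cases (S u).x (S v).x <;> intro h <;> linarith
          · rw [Set.mem_uIcc]; right
            constructor <;> cases min_cases (S u).x (S v).x <;> linarith
          · cases min_cases (S u).x (S v).x <;> intro h <;> linarith
          · cases min_cases (S u).x (S v).x <;> intro h <;> linarith
      · rcases hx with ⟨hx1, hx2⟩ | ⟨hx1, hx2⟩
        · have b1 : (S v).x < (S u).hx := lt_of_le_of_ne hx1 (Ne.symm a2)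
          have b2 : (S u).hx < (S v).hx := lt_of_le_of_ne hx2 a1
          refine ⟨((S u).hx + max (S u).x (S v).x) / 2, ?_, ?_, ?_, ?_, ?_⟩
          · rw [Set.mem_uIcc]; left
            constructor <;> cases max_cases (S u).x (S v).x <;> linarith
          · cases max_cases (S u).x (S v).x <;> intro h <;> linarith
          · rw [Set.mem_uIcc]; left
            constructor <;> cases max_cases (S u).x (S v).x <;> linarith
          · cases max_cases (S u).x (S v).x <;> intro h <;> linarith
          · cases max_cases (S u).x (S v).x <;> intro h <;> linarith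
        · have b1 : (S v).hx < (S u).hx := lt_of_le_of_ne hx1 (Ne.symm a1)
          have b2 : (S u).hx < (S v).x := lt_of_le_of_ne hx2 a2
          refine ⟨((S u).hx + max (S u).x (S v).hx) / 2, ?_, ?_, ?_, ?_, ?_⟩
          · rw [Set.mem_uIcc]; left
            constructor <;> cases max_cases (S u).x (S v).hx <;> linarith
          · cases max_cases (S u).x (S v).hx <;> intro h <;> linarith
          · rw [Set.mem_uIcc]; right
            constructor <;> cases max_cases (S u).x (S v).hx <;> linarith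
          · cases max_cases (S u).x (S v).hx <;> intro h <;> linarith
          · cases max_cases (S u).x (S v).hx <;> intro h <;> linarith
    have hu : (t, (S u).y) ∈ (S u).carrier := Or.inl ⟨rfl, ht1⟩
    have hv : (t, (S u).y) ∈ (S v).carrier := Or.inl ⟨hy, ht3⟩
    have hnu : ¬ (S u).IsEnd (t, (S u).y) := by
      rintro (h | h)
      · exact ht2 (congrArg Prod.fst h)
      · exact (S u).vne (congrArg Prod.snd h).symm
    have hnv : ¬ (S v).IsEnd (t, (S u).y) := by
      rintro (h | h)
      · exact ht4.2 (congrArg Prod.fst h)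
      · exact ht4.1 (congrArg Prod.fst h)
    rcases hS u v huv _ hu hv with h | h
    · exact hnu h.1
    · exact hnv h.1
  · simp only at hx hy
    refine ⟨hx.symm, ?_⟩
    have a1 : (S u).y ≠ (S v).vy := fun h => e2 ⟨hx, h⟩
    have a2 : (S u).y ≠ (S v).y := fun h => e3 ⟨hx, h⟩
    rw [Set.mem_uIcc] at hy
    rcases hy with ⟨h1, h2⟩ | ⟨h1, h2⟩
    · exact Or.inl ⟨lt_of_le_of_ne h1 (Ne.symm a2), lt_of_le_of_ne h2 a1⟩
    · exact Or.inr ⟨lt_of_le_of_ne h1 (Ne.symm a1), lt_of_le_of_ne h2 a2⟩

/-! ## Symmetries -/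

/-- Exchange the coordinates. -/
def LShape.swap (L : LShape) : LShape := ⟨L.y, L.x, L.vy, L.hx, L.vne, L.hne⟩

lemma swap_mem (L : LShape) (p : ℝ × ℝ) : p ∈ L.swap.carrier ↔ p.swap ∈ L.carrier := by
  simp only [LShape.carrier, LShape.swap, Set.mem_ofPred_eq, Prod.fst_swap, Prod.snd_swap]
  tauto

lemma swap_end (L : LShape) (p : ℝ × ℝ) : L.swap.IsEnd p ↔ L.IsEnd p.swap := by
  rcases p with ⟨a, b⟩
  simp only [LShape.IsEnd, LShape.swap, Prod.swap_prod_mk, Prod.mk.injEq]
  tauto

lemma swap_touch (L M : LShape) (p : ℝ × ℝ) : Touch L.swap M.swap p ↔ Touch L M p.swap := by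
  unfold Touch
  rw [swap_mem, swap_end, swap_end]
  have : (p ≠ M.swap.bend) ↔ (p.swap ≠ M.bend) := by
    rcases p with ⟨a, b⟩
    simp only [LShape.bend, LShape.swap, Prod.swap_prod_mk, Prod.mk.injEq, ne_eq]
    tauto
  rw [this]

lemma swap_NC (hS : NonCrossing S) : NonCrossing (fun v => (S v).swap) := by
  intro u v huv p hu hv
  rw [swap_mem] at hu hv
  simp only [swap_touch]
  exact hS u v huv _ hu hv

lemma swap_TH (u v : V) : TH (fun v => (S v).swap) u v ↔ TV S u v := by
  unfold TH TV
  rw [swap_touch]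
  rfl

lemma swap_TV (u v : V) : TV (fun v => (S v).swap) u v ↔ TH S u v := by
  unfold TH TV
  rw [swap_touch]
  rfl

/-- A vertical end touches the inside of a horizontal segment. -/
lemma TV_coord (hS : NonCrossing S) {u v : V} (huv : u ≠ v) (h : TV S u v) :
    (S v).y = (S u).vy ∧
      (((S v).x < (S u).x ∧ (S u).x < (S v).hx) ∨ ((S v).hx < (S u).x ∧ (S u).x < (S v).x)) :=
  TH_coord (S := fun v => (S v).swap) (swap_NC hS) huv ((swap_TH u v).2 h)

end Pool.Agent.Q98.LC
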