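import Pool.Agent.Q98.LC.Graph

/-!
# The drawing is plane
-/

namespace Pool.Agent.Q98.LC

/-- Twice the signed area. -/
def X (a b c : ℝ × ℝ) : ℝ := (b.1 - a.1) * (c.2 - a.2) - (b.2 - a.2) * (c.1 - a.1)

lemma seg_par {x y p : ℝ × ℝ} (h : p ∈ segment ℝ x y) :
    ∃ t, 0 ≤ t ∧ t ≤ 1 ∧ p = ((1 - t) * x.1 + t * y.1, (1 - t) * x.2 + t * y.2) := by
  rw [segment_eq_image] at h
  obtain ⟨t, ht, rfl⟩ := h
  exact ⟨t, ht.1, ht.2, by ext <;> simp⟩

lemma X_seg {a b x y p : ℝ × ℝ} {t : ℝ}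
    (h : p = ((1 - t) * x.1 + t * y.1, (1 - t) * x.2 + t * y.2)) :
    X a b p = (1 - t) * X a b x + t * X a b y := by
  subst h; unfold X; ring

lemma X_zero {a b p : ℝ × ℝ} (h : p ∈ segment ℝ a b) : X a b p = 0 := by
  obtain ⟨t, -, -, h⟩ := seg_par h
  rw [X_seg h]; unfold X; ring

lemma same_side {a b x y p : ℝ × ℝ} (h : 0 < X a b x * X a b y) (h1 : p ∈ segment ℝ a b)
    (h2 : p ∈ segment ℝ x y) : False := by
  have h3 := X_zero h1
  obtain ⟨t, t0, t1, h4⟩ := seg_par h2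
  rw [X_seg h4] at h3
  have hne : X a b x ≠ 0 := by rintro h0; rw [h0, zero_mul] at h; exact lt_irrefl _ h
  have h5 : 0 < X a b x * X a b x := mul_self_pos.2 hne
  have h6 : (1 - t) * (X a b x * X a b x) + t * (X a b x * X a b y) = 0 := by
    have : X a b x * ((1 - t) * X a b x + t * X a b y) = 0 := by rw [h3, mul_zero]
    linarith
  rcases eq_or_lt_of_le t0 with h0 | h0
  · rw [← h0] at h6; linarith
  · nlinarith [mul_pos h0 h, mul_nonneg (sub_nonneg.2 t1) h5.le]

lemma shared {a b y p : ℝ × ℝ} (h : X a b y ≠ 0) (h1 : p ∈ segment ℝ a b)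
    (h2 : p ∈ segment ℝ a y) : p = a := by
  have h3 := X_zero h1
  obtain ⟨t, t0, t1, h4⟩ := seg_par h2
  rw [X_seg h4] at h3
  have h5 : X a b a = 0 := by unfold X; ring
  rw [h5, mul_zero, zero_add] at h3
  rcases mul_eq_zero.1 h3 with h6 | h6
  · rw [h4, h6]; ext <;> simp
  · exact absurd h6 h

/-- The positions. -/
def pos (u : Fin 21) : ℝ × ℝ := ((px u : ℝ), (py u : ℝ))

lemma X_pos (a b c : Fin 21) : X (pos a) (pos b) (pos c) = (cr a b c : ℝ) := by
  unfold X pos cr; push_cast; ring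

lemma of_test {u v x y : Fin 21} (h : Test u v x y) (hne : s(u, v) ≠ s(x, y)) {p : ℝ × ℝ}
    (h1 : p ∈ segment ℝ (pos u) (pos v)) (h2 : p ∈ segment ℝ (pos x) (pos y)) :
    ∃ z, (z = u ∨ z = v) ∧ (z = x ∨ z = y) ∧ p = pos z := by
  rcases h with ⟨rfl, h⟩ | ⟨rfl, h⟩ | ⟨rfl, h⟩ | ⟨rfl, h⟩ | h | h
  · rcases h with rfl | h
    · exact absurd rfl hne
    · refine ⟨u, Or.inl rfl, Or.inl rfl, shared (b := pos v) (y := pos y) ?_ h1 h2⟩
      rw [X_pos]; exact_mod_cast h
  · rcases h with rfl | h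
    · exact absurd Sym2.eq_swap hne
    · rw [segment_symm] at h2
      refine ⟨u, Or.inl rfl, Or.inr rfl, shared (b := pos v) (y := pos x) ?_ h1 h2⟩
      rw [X_pos]; exact_mod_cast h
  · rcases h with rfl | h
    · exact absurd Sym2.eq_swap hne
    · rw [segment_symm] at h1
      refine ⟨v, Or.inr rfl, Or.inl rfl, shared (b := pos u) (y := pos y) ?_ h1 h2⟩
      rw [X_pos]; exact_mod_cast h
  · rcases h with rfl | h
    · exact absurd rfl hne
    · rw [segment_symm] at h1 h2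
      refine ⟨v, Or.inr rfl, Or.inr rfl, shared (b := pos u) (y := pos x) ?_ h1 h2⟩
      rw [X_pos]; exact_mod_cast h
  · exfalso
    refine same_side ?_ h1 h2
    rw [X_pos, X_pos]; exact_mod_cast h
  · exfalso
    refine same_side ?_ h2 h1
    rw [X_pos, X_pos]; exact_mod_cast h

lemma of_par {u v x y : Fin 21} (huv : Par u v) (hxy : Par x y) : Test u v x y := by
  obtain ⟨hu, huv⟩ := huv
  obtain ⟨hx, hxy⟩ := hxy
  rcases test_all u x with ⟨a, b, c, d⟩ | h | h
  · rcases huv with rfl | rfl <;> rcases hxy with rfl | rfl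
    · exact a
    · exact b
    · exact c
    · exact d
  · exact absurd h hu
  · exact absurd h hx

lemma edge_all (u v x y : Fin 21) (h1 : G21.Adj u v) (h2 : G21.Adj x y)
    (hne : s(u, v) ≠ s(x, y)) (p : ℝ × ℝ)
    (h3 : p ∈ segment ℝ (pos u) (pos v)) (h4 : p ∈ segment ℝ (pos x) (pos y)) :
    ∃ z, (z = u ∨ z = v) ∧ (z = x ∨ z = y) ∧ p = pos z := by
  rcases h1 with h1 | h1 <;> rcases h2 with h2 | h2
  · exact of_test (of_par h1 h2) hne h3 h4
  · rw [segment_symm ℝ (pos x)] at h4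
    obtain ⟨z, a, b, c⟩ := of_test (of_par h1 h2) (fun k => hne (k.trans Sym2.eq_swap)) h3 h4
    exact ⟨z, a, b.symm, c⟩
  · rw [segment_symm ℝ (pos u)] at h3
    obtain ⟨z, a, b, c⟩ := of_test (of_par h1 h2) (fun k => hne (Sym2.eq_swap.trans k)) h3 h4
    exact ⟨z, a.symm, b, c⟩
  · rw [segment_symm ℝ (pos u)] at h3
    rw [segment_symm ℝ (pos x)] at h4
    obtain ⟨z, a, b, c⟩ := of_test (of_par h1 h2)
      (fun k => hne (Sym2.eq_swap.trans (k.trans Sym2.eq_swap))) h3 h4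
    exact ⟨z, a.symm, b.symm, c⟩

lemma pos_inj : Function.Injective pos := by
  intro u v h
  have h1 : px u = px v := by
    have := congrArg Prod.fst h
    simpa [pos] using this
  have h2 : py u = py v := by
    have := congrArg Prod.snd h
    simpa [pos] using this
  have : ∀ u v : Fin 21, px u = px v → py u = py v → u = v := by decide +kernel
  exact this u v h1 h2

lemma two_nb : ∀ u v w : Fin 21, G21.Adj u v → w ≠ u → w ≠ v →
    ∃ z, G21.Adj w z := by
  intro u v w _ _ _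
  have : ∀ w : Fin 21, ∃ z, G21.Adj w z := by decide +kernel
  exact this w

theorem plane : IsPlaneDrawing G21 pos := by
  refine ⟨pos_inj, ?_, edge_all⟩
  intro u v w huv hw
  by_contra hcon
  push Not at hcon
  obtain ⟨z, hz⟩ := two_nb u v w huv hcon.1 hcon.2
  have hne : s(u, v) ≠ s(w, z) := by
    intro h
    have : w ∈ s(u, v) := by rw [h]; exact Sym2.mem_mk_left w z
    rw [Sym2.mem_iff] at this
    tauto
  obtain ⟨t, ht, -, h3⟩ := edge_all u v w z huv hz hne (pos w) hw (left_mem_segment ℝ _ _)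
  have := pos_inj h3
  subst this
  tauto

end Pool.Agent.Q98.LC
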