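import Pool.Agent.Q98.LC.Def

/-!
# Barriers
-/

namespace Pool.Agent.Q98.LC

variable {V : Type} {S : V → LShape}

/-- The shapes `r` and `t` separate, inside the angle of `v`, the bend of `v` from its ends. -/
structure Barrier (v r t : LShape) : Prop where
  h1 : v.x < t.x
  h2 : t.x < r.x
  h3 : r.x < v.hx
  h4 : v.y < r.y
  h5 : r.y < t.y
  h6 : t.y < v.vy
  h7 : r.vy = v.y
  h8 : t.hx = v.x
  h9 : (r.hx = t.x ∧ t.vy < r.y) ∨ (t.vy = r.y ∧ r.hx < t.x)

/-- The region cut off by a barrier. -/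
def Ins (v r t : LShape) (p : ℝ × ℝ) : Prop :=
  v.x < p.1 ∧ v.y < p.2 ∧ ((p.1 < r.x ∧ p.2 < r.y) ∨ (p.1 < t.x ∧ p.2 < t.y))

/-- The boundary of the region. -/
def OnB (v r t : LShape) (p : ℝ × ℝ) : Prop :=
  (p.2 = v.y ∧ v.x ≤ p.1 ∧ p.1 ≤ r.x) ∨ (p.1 = r.x ∧ v.y ≤ p.2 ∧ p.2 ≤ r.y) ∨
  (p.2 = r.y ∧ t.x ≤ p.1 ∧ p.1 ≤ r.x) ∨ (p.1 = t.x ∧ r.y ≤ p.2 ∧ p.2 ≤ t.y) ∨
  (p.2 = t.y ∧ v.x ≤ p.1 ∧ p.1 ≤ t.x) ∨ (p.1 = v.x ∧ v.y ≤ p.2 ∧ p.2 ≤ t.y)

lemma ins_onB {v r t : LShape} (B : Barrier v r t) {p : ℝ × ℝ} (h : Ins v r t p)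
    (h' : OnB v r t p) : False := by
  obtain ⟨h1, h2, h3, h4, h5, h6, h7, h8, h9⟩ := B
  obtain ⟨a1, a2, a3⟩ := h
  rcases h' with ⟨b1, b2, b3⟩ | ⟨b1, b2, b3⟩ | ⟨b1, b2, b3⟩ | ⟨b1, b2, b3⟩ | ⟨b1, b2, b3⟩ |
    ⟨b1, b2, b3⟩ <;> rcases a3 with ⟨a3, a4⟩ | ⟨a3, a4⟩ <;> linarith

/-- Moving horizontally out of the region one meets the boundary. -/
lemma hmove {v r t : LShape} (B : Barrier v r t) {y s s' : ℝ} (h : Ins v r t (s, y))
    (h' : ¬ Ins v r t (s', y)) : ∃ q ∈ Set.uIcc s s', OnB v r t (q, y) := by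
  obtain ⟨h1, h2, h3, h4, h5, h6, h7, h8, h9⟩ := B
  obtain ⟨a1, a2, a3⟩ := h
  simp only at a1 a2 a3
  by_cases c1 : s' ≤ v.x
  · refine ⟨v.x, ?_, ?_⟩
    · rw [Set.mem_uIcc]; right; constructor <;> linarith
    · right; right; right; right; right
      refine ⟨rfl, ?_, ?_⟩
      · simp only; linarith
      · simp only; rcases a3 with ⟨a3, a4⟩ | ⟨a3, a4⟩ <;> linarith
  · push Not at c1
    by_cases c2 : y < r.y
    · have hs : s < r.x := by rcases a3 with ⟨a3, a4⟩ | ⟨a3, a4⟩ <;> linarith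
      by_cases c3 : s' < r.x
      · exact absurd ⟨c1, a2, Or.inl ⟨c3, c2⟩⟩ h'
      · push Not at c3
        refine ⟨r.x, ?_, ?_⟩
        · rw [Set.mem_uIcc]; left; constructor <;> linarith
        · right; left
          exact ⟨rfl, by simp only; linarith, by simp only; linarith⟩
    · push Not at c2
      have hs : s < t.x ∧ y < t.y := by
        rcases a3 with ⟨a3, a4⟩ | ⟨a3, a4⟩
        · linarith
        · exact ⟨a3, a4⟩
      by_cases c3 : s' < t.x
      · exact absurd ⟨c1, a2, Or.inr ⟨c3, hs.2⟩⟩ h'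
      · push Not at c3
        refine ⟨t.x, ?_, ?_⟩
        · rw [Set.mem_uIcc]; left; constructor <;> linarith [hs.1]
        · right; right; right; left
          exact ⟨rfl, by simp only; linarith, by simp only; linarith [hs.2]⟩

/-- Moving vertically out of the region one meets the boundary. -/
lemma vmove {v r t : LShape} (B : Barrier v r t) {x s s' : ℝ} (h : Ins v r t (x, s))
    (h' : ¬ Ins v r t (x, s')) : ∃ q ∈ Set.uIcc s s', OnB v r t (x, q) := by
  obtain ⟨h1, h2, h3, h4, h5, h6, h7, h8, h9⟩ := B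
  obtain ⟨a1, a2, a3⟩ := h
  simp only at a1 a2 a3
  by_cases c1 : s' ≤ v.y
  · refine ⟨v.y, ?_, ?_⟩
    · rw [Set.mem_uIcc]; right; constructor <;> linarith
    · left
      refine ⟨rfl, ?_, ?_⟩
      · simp only; linarith
      · simp only; rcases a3 with ⟨a3, a4⟩ | ⟨a3, a4⟩ <;> linarith
  · push Not at c1
    by_cases c2 : x < t.x
    · have hs : s < t.y := by rcases a3 with ⟨a3, a4⟩ | ⟨a3, a4⟩ <;> linarith
      by_cases c3 : s' < t.y
      · exact absurd ⟨a1, c1, Or.inr ⟨c2, c3⟩⟩ h'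
      · push Not at c3
        refine ⟨t.y, ?_, ?_⟩
        · rw [Set.mem_uIcc]; left; constructor <;> linarith
        · right; right; right; right; left
          exact ⟨rfl, by simp only; linarith, by simp only; linarith⟩
    · push Not at c2
      have hs : x < r.x ∧ s < r.y := by
        rcases a3 with ⟨a3, a4⟩ | ⟨a3, a4⟩
        · exact ⟨a3, a4⟩
        · linarith
      by_cases c3 : s' < r.y
      · exact absurd ⟨a1, c1, Or.inl ⟨hs.1, c3⟩⟩ h'
      · push Not at c3
        refine ⟨r.y, ?_, ?_⟩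
        · rw [Set.mem_uIcc]; left; constructor <;> linarith [hs.2]
        · right; right; left
          exact ⟨rfl, by simp only; linarith, by simp only; linarith [hs.1]⟩

/-- Every boundary point is a point, not an end, of one of the three shapes. -/
lemma onB_mem {v r t : LShape} (B : Barrier v r t) {p : ℝ × ℝ} (h : OnB v r t p) :
    (p ∈ v.carrier ∧ ¬ v.IsEnd p) ∨ (p ∈ r.carrier ∧ ¬ r.IsEnd p) ∨
      (p ∈ t.carrier ∧ ¬ t.IsEnd p) := by
  obtain ⟨h1, h2, h3, h4, h5, h6, h7, h8, h9⟩ := B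
  rcases p with ⟨a, b⟩
  unfold OnB at h
  simp only at h
  have memv1 : b = v.y → v.x ≤ a → a ≤ r.x → ((a, b) ∈ v.carrier ∧ ¬ v.IsEnd (a, b)) := by
    intro b1 b2 b3
    refine ⟨Or.inl ⟨b1, ?_⟩, ?_⟩
    · simp only [Set.mem_uIcc]; left; constructor <;> linarith
    · rintro (h | h) <;> simp only [Prod.mk.injEq] at h
      · linarith [h.1]
      · linarith [h.2]
  have memv2 : a = v.x → v.y ≤ b → b ≤ t.y → ((a, b) ∈ v.carrier ∧ ¬ v.IsEnd (a, b)) := by
    intro b1 b2 b3
    refine ⟨Or.inr ⟨b1, ?_⟩, ?_⟩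
    · simp only [Set.mem_uIcc]; left; constructor <;> linarith
    · rintro (h | h) <;> simp only [Prod.mk.injEq] at h
      · linarith [h.1]
      · linarith [h.2]
  -- the corner `(t.x, r.y)`
  have corner : a = t.x → b = r.y → (((a, b) ∈ r.carrier ∧ ¬ r.IsEnd (a, b)) ∨
      ((a, b) ∈ t.carrier ∧ ¬ t.IsEnd (a, b))) := by
    intro b1 b2
    rcases h9 with ⟨c1, c2⟩ | ⟨c1, c2⟩
    · right
      refine ⟨Or.inr ⟨b1, ?_⟩, ?_⟩
      · simp only [Set.mem_uIcc]; right; constructor <;> linarith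
      · rintro (h | h) <;> simp only [Prod.mk.injEq] at h
        · linarith [h.1]
        · linarith [h.2]
    · left
      refine ⟨Or.inl ⟨b2, ?_⟩, ?_⟩
      · simp only [Set.mem_uIcc]; right; constructor <;> linarith
      · rintro (h | h) <;> simp only [Prod.mk.injEq] at h
        · linarith [h.1]
        · linarith [h.1]
  rcases h with ⟨b1, b2, b3⟩ | ⟨b1, b2, b3⟩ | ⟨b1, b2, b3⟩ | ⟨b1, b2, b3⟩ | ⟨b1, b2, b3⟩ |
    ⟨b1, b2, b3⟩
  · exact Or.inl (memv1 b1 b2 b3)
  · by_cases hb : b = v.y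
    · exact Or.inl (memv1 hb (by linarith) (by linarith))
    · right; left
      refine ⟨Or.inr ⟨b1, ?_⟩, ?_⟩
      · simp only [Set.mem_uIcc]; right; constructor <;> linarith
      · rintro (h | h) <;> simp only [Prod.mk.injEq] at h
        · rcases h9 with ⟨c1, c2⟩ | ⟨c1, c2⟩ <;> linarith [h.1]
        · exact hb (by linarith [h.2])
  · by_cases ha : a = t.x
    · exact Or.inr (corner ha b1)
    · have ha' : t.x < a := lt_of_le_of_ne b2 (Ne.symm ha)
      right; left
      refine ⟨Or.inl ⟨b1, ?_⟩, ?_⟩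
      · simp only [Set.mem_uIcc]; right
        rcases h9 with ⟨c1, c2⟩ | ⟨c1, c2⟩ <;> constructor <;> linarith
      · rintro (h | h) <;> simp only [Prod.mk.injEq] at h
        · rcases h9 with ⟨c1, c2⟩ | ⟨c1, c2⟩ <;> linarith [h.1]
        · linarith [h.2]
  · by_cases hb : b = r.y
    · exact Or.inr (corner b1 hb)
    · have hb' : r.y < b := lt_of_le_of_ne b2 (Ne.symm hb)
      right; right
      refine ⟨Or.inr ⟨b1, ?_⟩, ?_⟩
      · simp only [Set.mem_uIcc]; right
        rcases h9 with ⟨c1, c2⟩ | ⟨c1, c2⟩ <;> constructor <;> linarith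
      · rintro (h | h) <;> simp only [Prod.mk.injEq] at h
        · linarith [h.1]
        · rcases h9 with ⟨c1, c2⟩ | ⟨c1, c2⟩ <;> linarith [h.2]
  · by_cases ha : a = v.x
    · exact Or.inl (memv2 ha (by linarith) (by linarith))
    · right; right
      refine ⟨Or.inl ⟨b1, ?_⟩, ?_⟩
      · simp only [Set.mem_uIcc]; right; constructor <;> linarith
      · rintro (h | h) <;> simp only [Prod.mk.injEq] at h
        · exact ha (by linarith [h.1])
        · rcases h9 with ⟨c1, c2⟩ | ⟨c1, c2⟩ <;> linarith [h.2]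
  · exact Or.inl (memv2 b1 b2 b3)

variable {v r t : V}

/-- Another shape meets the boundary only in its ends. -/
lemma onB_end (hS : NonCrossing S) (B : Barrier (S v) (S r) (S t)) {u : V} (huv : u ≠ v)
    (hur : u ≠ r) (hut : u ≠ t) {p : ℝ × ℝ} (hp : p ∈ (S u).carrier)
    (hb : OnB (S v) (S r) (S t) p) : (S u).IsEnd p := by
  rcases onB_mem B hb with ⟨h1, h2⟩ | ⟨h1, h2⟩ | ⟨h1, h2⟩
  · rcases hS u v huv p hp h1 with h | h
    · exact h.1
    · exact absurd h.1 h2
  · rcases hS u r hur p hp h1 with h | h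
    · exact h.1
    · exact absurd h.1 h2
  · rcases hS u t hut p hp h1 with h | h
    · exact h.1
    · exact absurd h.1 h2

/-- If a point of `u` is in the region, so is its bend. -/
lemma ins_bend (hS : NonCrossing S) (B : Barrier (S v) (S r) (S t)) {u : V} (huv : u ≠ v)
    (hur : u ≠ r) (hut : u ≠ t) {p : ℝ × ℝ} (hp : p ∈ (S u).carrier)
    (hi : Ins (S v) (S r) (S t) p) : Ins (S v) (S r) (S t) ((S u).x, (S u).y) := by
  by_contra hcon
  rcases p with ⟨a, b⟩
  rcases hp with ⟨h1, h2⟩ | ⟨h1, h2⟩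
  · simp only at h1 h2
    subst h1
    obtain ⟨q, hq, hqB⟩ := hmove B hi hcon
    have hqm : (q, (S u).y) ∈ (S u).carrier := by
      refine Or.inl ⟨rfl, ?_⟩
      simp only [Set.mem_uIcc] at hq h2 ⊢
      rcases hq with ⟨c1, c2⟩ | ⟨c1, c2⟩ <;> rcases h2 with ⟨d1, d2⟩ | ⟨d1, d2⟩ <;>
        first
        | (left; constructor <;> linarith)
        | (right; constructor <;> linarith)
    rcases onB_end hS B huv hur hut hqm hqB with h | h
    · simp only [Prod.mk.injEq, and_true] at h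
      have : q = a := by
        subst h
        simp only [Set.mem_uIcc] at hq h2
        rcases hq with ⟨c1, c2⟩ | ⟨c1, c2⟩ <;> rcases h2 with ⟨d1, d2⟩ | ⟨d1, d2⟩ <;>
          linarith
      rw [this] at hqB
      exact ins_onB B hi hqB
    · simp only [Prod.mk.injEq] at h
      exact (S u).vne h.2.symm
  · simp only at h1 h2
    subst h1
    obtain ⟨q, hq, hqB⟩ := vmove B hi hcon
    have hqm : ((S u).x, q) ∈ (S u).carrier := by
      refine Or.inr ⟨rfl, ?_⟩
      simp only [Set.mem_uIcc] at hq h2 ⊢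
      rcases hq with ⟨c1, c2⟩ | ⟨c1, c2⟩ <;> rcases h2 with ⟨d1, d2⟩ | ⟨d1, d2⟩ <;>
        first
        | (left; constructor <;> linarith)
        | (right; constructor <;> linarith)
    rcases onB_end hS B huv hur hut hqm hqB with h | h
    · simp only [Prod.mk.injEq] at h
      exact (S u).hne h.1.symm
    · simp only [Prod.mk.injEq, true_and] at h
      have : q = b := by
        subst h
        simp only [Set.mem_uIcc] at hq h2
        rcases hq with ⟨c1, c2⟩ | ⟨c1, c2⟩ <;> rcases h2 with ⟨d1, d2⟩ | ⟨d1, d2⟩ <;>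
          linarith
      rw [this] at hqB
      exact ins_onB B hi hqB

/-- If the bend is in the region, all points are in the region or on the boundary. -/
lemma ins_all (hS : NonCrossing S) (B : Barrier (S v) (S r) (S t)) {u : V} (huv : u ≠ v)
    (hur : u ≠ r) (hut : u ≠ t) (hi : Ins (S v) (S r) (S t) ((S u).x, (S u).y)) {p : ℝ × ℝ}
    (hp : p ∈ (S u).carrier) : Ins (S v) (S r) (S t) p ∨ OnB (S v) (S r) (S t) p := by
  by_contra hcon
  push Not at hcon
  rcases p with ⟨a, b⟩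
  rcases hp with ⟨h1, h2⟩ | ⟨h1, h2⟩
  · simp only at h1 h2
    subst h1
    obtain ⟨q, hq, hqB⟩ := hmove B hi hcon.1
    have hqm : (q, (S u).y) ∈ (S u).carrier := by
      refine Or.inl ⟨rfl, ?_⟩
      simp only [Set.mem_uIcc] at hq h2 ⊢
      rcases hq with ⟨c1, c2⟩ | ⟨c1, c2⟩ <;> rcases h2 with ⟨d1, d2⟩ | ⟨d1, d2⟩ <;>
        first
        | (left; constructor <;> linarith)
        | (right; constructor <;> linarith)
    rcases onB_end hS B huv hur hut hqm hqB with h | h
    · simp only [Prod.mk.injEq, and_true] at h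
      have : q = a := by
        subst h
        simp only [Set.mem_uIcc] at hq h2
        rcases hq with ⟨c1, c2⟩ | ⟨c1, c2⟩ <;> rcases h2 with ⟨d1, d2⟩ | ⟨d1, d2⟩ <;>
          linarith
      rw [this] at hqB
      exact hcon.2 hqB
    · simp only [Prod.mk.injEq] at h
      exact (S u).vne h.2.symm
  · simp only at h1 h2
    subst h1
    obtain ⟨q, hq, hqB⟩ := vmove B hi hcon.1
    have hqm : ((S u).x, q) ∈ (S u).carrier := by
      refine Or.inr ⟨rfl, ?_⟩
      simp only [Set.mem_uIcc] at hq h2 ⊢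
      rcases hq with ⟨c1, c2⟩ | ⟨c1, c2⟩ <;> rcases h2 with ⟨d1, d2⟩ | ⟨d1, d2⟩ <;>
        first
        | (left; constructor <;> linarith)
        | (right; constructor <;> linarith)
    rcases onB_end hS B huv hur hut hqm hqB with h | h
    · simp only [Prod.mk.injEq] at h
      exact (S u).hne h.1.symm
    · simp only [Prod.mk.injEq, true_and] at h
      have : q = b := by
        subst h
        simp only [Set.mem_uIcc] at hq h2
        rcases hq with ⟨c1, c2⟩ | ⟨c1, c2⟩ <;> rcases h2 with ⟨d1, d2⟩ | ⟨d1, d2⟩ <;>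
          linarith
      rw [this] at hqB
      exact hcon.2 hqB

/-- The bend of `u` is in the region. -/
def Side (S : V → LShape) (v r t u : V) : Prop := Ins (S v) (S r) (S t) ((S u).x, (S u).y)

lemma side_of_touch (hS : NonCrossing S) (B : Barrier (S v) (S r) (S t)) {u w : V} (huv : u ≠ v)
    (hur : u ≠ r) (hut : u ≠ t) (hwv : w ≠ v) (hwr : w ≠ r) (hwt : w ≠ t) {p : ℝ × ℝ}
    (h : Touch (S u) (S w) p) : Side S v r t u ↔ Side S v r t w := by
  have hpu := end_mem h.1
  have hpw := h.2.1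
  constructor
  · intro hi
    rcases ins_all hS B huv hur hut hi hpu with hj | hj
    · exact ins_bend hS B hwv hwr hwt hpw hj
    · exact absurd (onB_end hS B hwv hwr hwt hpw hj) h.2.2.1
  · intro hi
    rcases ins_all hS B hwv hwr hwt hi hpw with hj | hj
    · exact ins_bend hS B huv hur hut hpu hj
    · exact absurd (onB_end hS B hwv hwr hwt hpw hj) h.2.2.1

/-- Adjacent shapes off the barrier are on the same side. -/
lemma side_iff (hS : NonCrossing S) (B : Barrier (S v) (S r) (S t)) {u w : V} (huv : u ≠ v)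
    (hur : u ≠ r) (hut : u ≠ t) (hwv : w ≠ v) (hwr : w ≠ r) (hwt : w ≠ t)
    (h : ∃ p, Touch (S u) (S w) p ∨ Touch (S w) (S u) p) : Side S v r t u ↔ Side S v r t w := by
  obtain ⟨p, h | h⟩ := h
  · exact side_of_touch hS B huv hur hut hwv hwr hwt h
  · exact (side_of_touch hS B hwv hwr hwt huv hur hut h).symm

/-- A shape standing on `v` between the bend of `v` and `r` is inside. -/
lemma side_in (hS : NonCrossing S) (B : Barrier (S v) (S r) (S t)) {u : V} (huv : u ≠ v)
    (hur : u ≠ r) (hut : u ≠ t) (h1 : (S u).vy = (S v).y) (h2 : (S v).y < (S u).y)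
    (h3 : (S v).x < (S u).x) (h4 : (S u).x < (S r).x) : Side S v r t u := by
  refine ins_bend hS B huv hur hut (p := ((S u).x, ((S v).y + min (S u).y (S r).y) / 2)) ?_ ?_
  · refine Or.inr ⟨rfl, ?_⟩
    have := B.h4
    simp only [Set.mem_uIcc]
    right
    constructor <;> cases min_cases (S u).y (S r).y <;> linarith
  · have := B.h4
    refine ⟨h3, ?_, Or.inl ⟨h4, ?_⟩⟩
    · simp only; cases min_cases (S u).y (S r).y <;> linarith
    · simp only; cases min_cases (S u).y (S r).y <;> linarith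

/-- A shape to the right of `r` is not inside. -/
lemma side_out (B : Barrier (S v) (S r) (S t)) {u : V} (h4 : (S r).x < (S u).x) :
    ¬ Side S v r t u := by
  rintro ⟨-, -, h | h⟩
  · simp only at h; linarith [h.1]
  · simp only at h; linarith [h.1, B.h2]

end Pool.Agent.Q98.LC
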