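import Pool.Agent.Q98.LC.Block

/-!
# The graph
-/

namespace Pool.Agent.Q98.LC

/-- A straight line drawing in the plane: different vertices have different positions, a vertex lies
on no edge of which it is not an end, and two different edges meet only in the position of a common
end. -/
structure IsPlaneDrawing {V : Type} (G : SimpleGraph V) (pos : V → ℝ × ℝ) : Prop where
  inj : Function.Injective pos
  vertex : ∀ u v w, G.Adj u v → pos w ∈ segment ℝ (pos u) (pos v) → w = u ∨ w = v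
  edge : ∀ u v x y, G.Adj u v → G.Adj x y → s(u, v) ≠ s(x, y) →
    ∀ p, p ∈ segment ℝ (pos u) (pos v) → p ∈ segment ℝ (pos x) (pos y) →
      ∃ z, (z = u ∨ z = v) ∧ (z = x ∨ z = y) ∧ p = pos z

/-- The sparsity condition: every nonempty set `W` of vertices spans at most `2 |W| - 2` edges. -/
def IsSparse {V : Type} (G : SimpleGraph V) : Prop :=
  ∀ W : Finset V, W.Nonempty → {e ∈ G.edgeSet | ∀ x ∈ e, x ∈ W}.ncard + 2 ≤ 2 * W.card

/-- Parents in the first spanning tree. -/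
def p1 : Fin 21 → Fin 21 :=
  ![0, 0, 0, 1, 2, 0, 0, 5, 6, 0, 0, 9, 10, 0, 0, 13, 14, 0, 0, 17, 18]

/-- Parents in the second spanning tree. -/
def p2 : Fin 21 → Fin 21 :=
  ![0, 2, 3, 0, 5, 6, 7, 0, 9, 10, 11, 0, 13, 14, 15, 0, 17, 18, 19, 0, 1]

/-- Ranks in the first tree. -/
def r1 : Fin 21 → ℕ :=
  ![0, 1, 1, 2, 2, 1, 1, 2, 2, 1, 1, 2, 2, 1, 1, 2, 2, 1, 1, 2, 2]

/-- Ranks in the second tree. -/
def r2 : Fin 21 → ℕ :=
  ![0, 3, 2, 1, 4, 3, 2, 1, 4, 3, 2, 1, 4, 3, 2, 1, 4, 3, 2, 1, 4]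

/-- `w` is a parent of `u`. -/
def Par (u w : Fin 21) : Prop := u ≠ 0 ∧ (w = p1 u ∨ w = p2 u)

instance (u w : Fin 21) : Decidable (Par u w) := by unfold Par; infer_instance

/-- The graph. -/
def G21 : SimpleGraph (Fin 21) where
  Adj u w := Par u w ∨ Par w u
  symm := ⟨fun _ _ h => h.symm⟩
  loopless := ⟨by
    intro u h
    have : ∀ u : Fin 21, ¬ Par u u := by decide
    rcases h with h | h <;> exact this u h⟩

instance : DecidableRel G21.Adj := fun u w => by
  unfold G21; infer_instance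

lemma tree_bound (p : Fin 21 → Fin 21) (r : Fin 21 → ℕ) (hr : ∀ u, u ≠ 0 → r (p u) < r u)
    (W : Finset (Fin 21)) (hW : W.Nonempty) :
    (W.filter (fun u => u ≠ 0 ∧ p u ∈ W)).card + 1 ≤ W.card := by
  obtain ⟨m, hm, hmin⟩ := Finset.exists_min_image W r hW
  have hlt : (W.filter (fun u => u ≠ 0 ∧ p u ∈ W)).card < W.card := by
    apply Finset.card_lt_card
    refine ⟨Finset.filter_subset _ _, fun hsub => ?_⟩
    have := hsub hm
    rw [Finset.mem_filter] at this
    exact absurd (hmin _ this.2.2) (not_le.2 (hr m this.2.1))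
  omega

theorem sparse : IsSparse G21 := by
  intro W hW
  have h1 := tree_bound p1 r1 (by decide) W hW
  have h2 := tree_bound p2 r2 (by decide) W hW
  set F1 := (W.filter (fun u => u ≠ 0 ∧ p1 u ∈ W)) with hF1
  set F2 := (W.filter (fun u => u ≠ 0 ∧ p2 u ∈ W)) with hF2
  have hsub : {e ∈ G21.edgeSet | ∀ x ∈ e, x ∈ W} ⊆
      ((F1.image (fun u => s(u, p1 u)) ∪ F2.image (fun u => s(u, p2 u)) :
        Finset (Sym2 (Fin 21))) : Set (Sym2 (Fin 21))) := by
    rintro e ⟨he, heW⟩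
    induction e using Sym2.ind with
    | _ a b =>
      rw [SimpleGraph.mem_edgeSet] at he
      have ha : a ∈ W := heW a (Sym2.mem_mk_left a b)
      have hb : b ∈ W := heW b (Sym2.mem_mk_right a b)
      rw [Finset.coe_union]
      rcases he with ⟨h0, h | h⟩ | ⟨h0, h | h⟩
      · left
        rw [Finset.mem_coe, Finset.mem_image]
        exact ⟨a, Finset.mem_filter.2 ⟨ha, h0, h ▸ hb⟩, by rw [h]⟩
      · right
        rw [Finset.mem_coe, Finset.mem_image]
        exact ⟨a, Finset.mem_filter.2 ⟨ha, h0, h ▸ hb⟩, by rw [h]⟩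
      · left
        rw [Finset.mem_coe, Finset.mem_image]
        exact ⟨b, Finset.mem_filter.2 ⟨hb, h0, h ▸ ha⟩, by rw [h, Sym2.eq_swap]⟩
      · right
        rw [Finset.mem_coe, Finset.mem_image]
        exact ⟨b, Finset.mem_filter.2 ⟨hb, h0, h ▸ ha⟩, by rw [h, Sym2.eq_swap]⟩
  have h3 := Set.ncard_le_ncard hsub (Finset.finite_toSet _)
  rw [Set.ncard_coe_finset] at h3
  have h4 := Finset.card_union_le (F1.image (fun u => s(u, p1 u)))
    (F2.image (fun u => s(u, p2 u)))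
  have h5 := Finset.card_image_le (s := F1) (f := fun u => s(u, p1 u))
  have h6 := Finset.card_image_le (s := F2) (f := fun u => s(u, p2 u))
  omega

/-! ## The drawing -/

/-- Integer positions. -/
def px : Fin 21 → ℤ :=
  ![0, 30, 27, 19, 20, 9, -3, 2, -15, -24, -29, -18, -29, -24, -15, -13, -3, 9, 20, 10, 27]

/-- Integer positions. -/
def py : Fin 21 → ℤ :=
  ![0, 0, 12, 4, 22, 29, 30, 20, 26, 18, 6, 8, -6, -18, -26, -15, -30, -29, -22, -17, -12]

/-- Twice the signed area of a triangle. -/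
def cr (a b c : Fin 21) : ℤ := (px b - px a) * (py c - py a) - (py b - py a) * (px c - px a)

/-- The test for two edges. -/
def Test (u v x y : Fin 21) : Prop :=
  (u = x ∧ (v = y ∨ cr u v y ≠ 0)) ∨ (u = y ∧ (v = x ∨ cr u v x ≠ 0)) ∨
  (v = x ∧ (u = y ∨ cr v u y ≠ 0)) ∨ (v = y ∧ (u = x ∨ cr v u x ≠ 0)) ∨
  0 < cr u v x * cr u v y ∨ 0 < cr x y u * cr x y v

instance (u v x y : Fin 21) : Decidable (Test u v x y) := by unfold Test; infer_instance

lemma test_all : ∀ u x : Fin 21, Test u (p1 u) x (p1 x) ∧ Test u (p1 u) x (p2 x) ∧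
    Test u (p2 u) x (p1 x) ∧ Test u (p2 u) x (p2 x) ∨ u = 0 ∨ x = 0 := by
  decide +kernel

end Pool.Agent.Q98.LC
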