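import Pool.Agent.Q98.LC.Draw

/-!
# The graph is no contact graph
-/

namespace Pool.Agent.Q98.LC

/-! ## Reflections -/

/-- Reflection in the vertical axis. -/
def LShape.fx (L : LShape) : LShape :=
  ⟨-L.x, L.y, -L.hx, L.vy, fun h => L.hne (neg_injective h), L.vne⟩

lemma fx_mem (L : LShape) (p : ℝ × ℝ) : p ∈ L.fx.carrier ↔ (-p.1, p.2) ∈ L.carrier := by
  rcases p with ⟨a, b⟩
  simp only [LShape.carrier, LShape.fx, Set.mem_ofPred_eq, Set.mem_uIcc]
  constructor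
  · rintro (⟨h1, h2 | h2⟩ | ⟨h1, h2⟩)
    · exact Or.inl ⟨h1, Or.inr ⟨by linarith [h2.2], by linarith [h2.1]⟩⟩
    · exact Or.inl ⟨h1, Or.inl ⟨by linarith [h2.2], by linarith [h2.1]⟩⟩
    · exact Or.inr ⟨by linarith, h2⟩
  · rintro (⟨h1, h2 | h2⟩ | ⟨h1, h2⟩)
    · exact Or.inl ⟨h1, Or.inr ⟨by linarith [h2.2], by linarith [h2.1]⟩⟩
    · exact Or.inl ⟨h1, Or.inl ⟨by linarith [h2.2], by linarith [h2.1]⟩⟩
    · exact Or.inr ⟨by linarith, h2⟩

lemma neg_eq' {a b : ℝ} : a = -b ↔ -a = b := by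
  constructor <;> intro h <;> linarith

lemma fx_end (L : LShape) (p : ℝ × ℝ) : L.fx.IsEnd p ↔ L.IsEnd (-p.1, p.2) := by
  rcases p with ⟨a, b⟩
  simp only [LShape.IsEnd, LShape.fx, Prod.mk.injEq, neg_eq']

lemma fx_touch (L M : LShape) (p : ℝ × ℝ) : Touch L.fx M.fx p ↔ Touch L M (-p.1, p.2) := by
  unfold Touch
  rw [fx_mem, fx_end, fx_end]
  have : (p ≠ M.fx.bend) ↔ ((-p.1, p.2) ≠ M.bend) := by
    rcases p with ⟨a, b⟩
    simp only [LShape.bend, LShape.fx, Prod.mk.injEq, ne_eq, neg_eq']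
  rw [this]

variable {V : Type} {G : SimpleGraph V} {S : V → LShape}

lemma fx_rep (h : Represents G S) : Represents G (fun v => (S v).fx) := by
  refine ⟨?_, ?_⟩
  · intro u v huv p hu hv
    rw [fx_mem] at hu hv
    simp only [fx_touch]
    exact h.1 u v huv _ hu hv
  · intro u v huv
    rw [h.2 u v huv]
    simp only [fx_touch]
    constructor
    · rintro ⟨p, hp⟩
      exact ⟨(-p.1, p.2), by simpa using hp⟩
    · rintro ⟨p, hp⟩
      exact ⟨(-p.1, p.2), hp⟩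

lemma swap_rep (h : Represents G S) : Represents G (fun v => (S v).swap) := by
  refine ⟨swap_NC h.1, ?_⟩
  intro u v huv
  rw [h.2 u v huv]
  simp only [swap_touch]
  constructor
  · rintro ⟨p, hp⟩
    exact ⟨p.swap, by simpa using hp⟩
  · rintro ⟨p, hp⟩
    exact ⟨p.swap, hp⟩

/-- We may put the bend of a given shape in the lower left corner. -/
lemma wlog_rep (h : Represents G S) (v : V) : ∃ S' : V → LShape, Represents G S' ∧
    (S' v).x < (S' v).hx ∧ (S' v).y < (S' v).vy := by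
  have step1 : ∃ S' : V → LShape, Represents G S' ∧ (S' v).x < (S' v).hx := by
    rcases lt_or_gt_of_ne (S v).hne with k | k
    · exact ⟨_, fx_rep h, neg_lt_neg k⟩
    · exact ⟨S, h, k⟩
  obtain ⟨S1, h1, k1⟩ := step1
  rcases lt_or_gt_of_ne (S1 v).vne with k | k
  · exact ⟨_, swap_rep (fx_rep (swap_rep h1)), k1, neg_lt_neg k⟩
  · exact ⟨S1, h1, k1, k⟩

/-! ## Blocks -/

/-- The five blocks. -/
def blk : Fin 5 → Finset (Fin 21) :=
  ![{1, 2, 3}, {5, 6, 7}, {9, 10, 11}, {13, 14, 15}, {17, 18, 19}]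

lemma blk_card : ∀ i, (blk i).card = 3 := by decide

lemma blk_zero : ∀ i, (0 : Fin 21) ∉ blk i := by decide

lemma blk_disj : ∀ i j, i ≠ j → ∀ u ∈ blk i, u ∉ blk j := by decide

lemma blk_adj : ∀ i, ∀ u ∈ blk i, ∀ w ∈ blk i, u ≠ w → G21.Adj u w := by decide

lemma blk_zadj : ∀ i, ∀ u ∈ blk i, G21.Adj u 0 := by decide

/-- The next vertex on the way to the root. -/
def nx : Fin 21 → Fin 21 :=
  ![0, 20, 1, 1, 2, 4, 5, 5, 6, 8, 9, 9, 10, 12, 13, 13, 14, 16, 17, 17, 18]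

/-- The root of the graph without the hub and the block `i`. -/
def root : Fin 5 → Fin 21 := ![4, 8, 12, 16, 20]

/-- The distance from the root. -/
def rk (i : Fin 5) (u : Fin 21) : ℕ :=
  if (u.val - 1) % 4 = 3 then 3 * (((u.val - 1) / 4 + 5 - i.val) % 5)
  else 3 * (((u.val - 1) / 4 + 5 - i.val) % 5) - 2 + min ((u.val - 1) % 4) 1

lemma nx_step : ∀ i : Fin 5, ∀ u : Fin 21, u ≠ 0 → u ∉ blk i → u ≠ root i →
    G21.Adj u (nx u) ∧ nx u ≠ 0 ∧ nx u ∉ blk i ∧ rk i (nx u) < rk i u := by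
  decide +kernel

lemma conn (i : Fin 5) (P : Fin 21 → Prop) (h : ∀ u w, G21.Adj u w → u ≠ 0 → u ∉ blk i →
    w ≠ 0 → w ∉ blk i → (P u ↔ P w)) :
    ∀ n, ∀ u, rk i u = n → u ≠ 0 → u ∉ blk i → (P u ↔ P (root i)) := by
  intro n
  induction n using Nat.strong_induction_on with
  | _ n ih =>
    intro u hn hu hub
    by_cases hr : u = root i
    · rw [hr]
    · obtain ⟨h1, h2, h3, h4⟩ := nx_step i u hu hub hr
      rw [h u (nx u) h1 hu hub h2 h3]
      exact ih _ (by omega) (nx u) rfl h2 h3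

lemma touch_of {S : Fin 21 → LShape} (hS : Represents G21 S) {u w : Fin 21} (huw : u ≠ w)
    (h : G21.Adj u w) : (TH S u w ∨ TV S u w) ∨ (TH S w u ∨ TV S w u) := by
  obtain ⟨p, k | k⟩ := (hS.2 u w huw).1 h
  · exact Or.inl (touch_iff p k)
  · exact Or.inr (touch_iff p k)

lemma block_of {S : Fin 21 → LShape} (hS : Represents G21 S) (i : Fin 5)
    (h1 : ∀ u ∈ blk i, ¬ TH S 0 u) (h2 : ∀ u ∈ blk i, ¬ TV S 0 u) : Block S 0 (blk i) := by
  refine ⟨hS.1, blk_card i, blk_zero i, ?_, ?_⟩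
  · intro u hu w hw huw
    exact touch_of hS huw (blk_adj i u hu w hw huw)
  · intro u hu
    have hu0 : u ≠ 0 := by rintro rfl; exact blk_zero i hu
    rcases touch_of hS hu0 (blk_zadj i u hu) with k | k
    · exact k
    · rcases k with k | k
      · exact absurd k (h1 u hu)
      · exact absurd k (h2 u hu)

lemma mid {S : Fin 21 → LShape} (hS : Represents G21 S) {i j k : Fin 5} (hij : i ≠ j)
    (hkj : k ≠ j) {ri ti rj tj r : Fin 21} (hri : ri ∈ blk i) (hrj : rj ∈ blk j)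
    (htj : tj ∈ blk j) (hr : r ∈ blk k) (Bi : Barrier (S 0) (S ri) (S ti))
    (Bj : Barrier (S 0) (S rj) (S tj)) (h1 : (S ri).x < (S rj).x) (h2 : (S rj).x < (S r).x) :
    False := by
  have hi0 : ri ≠ 0 := by rintro rfl; exact blk_zero i hri
  have hr0 : r ≠ 0 := by rintro rfl; exact blk_zero k hr
  have hib : ri ∉ blk j := blk_disj i j hij ri hri
  have hrb : r ∉ blk j := blk_disj k j hkj r hr
  have key : ∀ u w, G21.Adj u w → u ≠ 0 → u ∉ blk j → w ≠ 0 → w ∉ blk j →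
      (Side S 0 rj tj u ↔ Side S 0 rj tj w) := by
    intro u w huw hu hub hw hwb
    refine side_iff hS.1 Bj hu ?_ ?_ hw ?_ ?_ ?_
    · rintro rfl; exact hub hrj
    · rintro rfl; exact hub htj
    · rintro rfl; exact hwb hrj
    · rintro rfl; exact hwb htj
    · have hne : u ≠ w := huw.ne
      exact (hS.2 u w hne).1 huw
  have c1 := conn j _ key _ ri rfl hi0 hib
  have c2 := conn j _ key _ r rfl hr0 hrb
  have s1 : Side S 0 rj tj ri := by
    refine side_in hS.1 Bj hi0 ?_ ?_ Bi.h7 Bi.h4 (Bi.h1.trans Bi.h2) h1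
    · rintro rfl; exact hib hrj
    · rintro rfl; exact hib htj
  exact side_out Bj h2 (c2.2 (c1.1 s1))

lemma x_ne {S : Fin 21 → LShape} (hS : Represents G21 S) {i j : Fin 5} (hij : i ≠ j)
    {ri ti rj tj : Fin 21} (hri : ri ∈ blk i) (hrj : rj ∈ blk j)
    (Bi : Barrier (S 0) (S ri) (S ti)) (Bj : Barrier (S 0) (S rj) (S tj)) :
    (S ri).x ≠ (S rj).x := by
  intro h
  have hne : ri ≠ rj := by rintro rfl; exact blk_disj i j hij ri hri hrj
  refine end_end hS.1 hne (p := ((S ri).x, (S 0).y)) (Or.inr ?_) (Or.inr ?_)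
  · rw [Bi.h7]
  · rw [Bj.h7, h]

theorem not_contact : ¬ IsLContact G21 := by
  classical
  rintro ⟨S0, hS0⟩
  obtain ⟨S, hS, hx, hy⟩ := wlog_rep hS0 0
  -- the blocks touched by the hub
  let bad : Finset (Fin 5) := Finset.univ.filter (fun i => (∃ u ∈ blk i, TH S 0 u))
  let bad' : Finset (Fin 5) := Finset.univ.filter (fun i => (∃ u ∈ blk i, TV S 0 u))
  have hz : ∀ i, ∀ u ∈ blk i, (0 : Fin 21) ≠ u := by
    rintro i u hu rfl; exact blk_zero i hu
  have hb1 : bad.card ≤ 1 := by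
    rw [Finset.card_le_one]
    intro i hi j hj
    obtain ⟨-, u, hu, ku⟩ := Finset.mem_filter.1 hi
    obtain ⟨-, w, hw, kw⟩ := Finset.mem_filter.1 hj
    by_contra hij
    have := TH_unique hS.1 (hz i u hu) (hz j w hw) ku kw
    subst this
    exact blk_disj i j hij u hu hw
  have hb2 : bad'.card ≤ 1 := by
    rw [Finset.card_le_one]
    intro i hi j hj
    obtain ⟨-, u, hu, ku⟩ := Finset.mem_filter.1 hi
    obtain ⟨-, w, hw, kw⟩ := Finset.mem_filter.1 hj
    by_contra hij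
    have := TV_unique hS.1 (hz i u hu) (hz j w hw) ku kw
    subst this
    exact blk_disj i j hij u hu hw
  have hgood : 2 < ((Finset.univ : Finset (Fin 5)) \ (bad ∪ bad')).card := by
    have h1 := Finset.le_card_sdiff (bad ∪ bad') (Finset.univ : Finset (Fin 5))
    have h2 := Finset.card_union_le bad bad'
    have h3 : (Finset.univ : Finset (Fin 5)).card = 5 := rfl
    omega
  have hbar : ∀ i ∈ (Finset.univ : Finset (Fin 5)) \ (bad ∪ bad'), ∃ r ∈ blk i, ∃ t ∈ blk i,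
      r ≠ t ∧ Barrier (S 0) (S r) (S t) := by
    intro i hi
    rw [Finset.mem_sdiff, Finset.mem_union, not_or] at hi
    refine (block_of hS i ?_ ?_).barrier hx hy
    · intro u hu k
      exact hi.2.1 (Finset.mem_filter.2 ⟨Finset.mem_univ i, u, hu, k⟩)
    · intro u hu k
      exact hi.2.2 (Finset.mem_filter.2 ⟨Finset.mem_univ i, u, hu, k⟩)
  obtain ⟨a, b, c, ha, hb, hc, hab, hac, hbc⟩ := Finset.two_lt_card_iff.1 hgood
  obtain ⟨ra, hra, ta, hta, -, Ba⟩ := hbar a ha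
  obtain ⟨rb, hrb, tb, htb, -, Bb⟩ := hbar b hb
  obtain ⟨rc, hrc, tc, htc, -, Bc⟩ := hbar c hc
  have eab := x_ne hS hab hra hrb Ba Bb
  have eac := x_ne hS hac hra hrc Ba Bc
  have ebc := x_ne hS hbc hrb hrc Bb Bc
  rcases lt_or_gt_of_ne eab with k1 | k1 <;> rcases lt_or_gt_of_ne eac with k2 | k2 <;>
    rcases lt_or_gt_of_ne ebc with k3 | k3
  · -- a < b < c
    exact mid hS hab hbc.symm hra hrb htb hrc Ba Bb k1 k3
  · -- a < c < b
    exact mid hS hac hbc hra hrc htc hrb Ba Bc k2 k3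
  · linarith
  · -- c < a < b
    exact mid hS hac.symm hab.symm hrc hra hta hrb Bc Ba k2 k1
  · -- b < a < c
    exact mid hS hab.symm hac.symm hrb hra hta hrc Bb Ba k1 k2
  · linarith
  · -- b < c < a
    exact mid hS hbc hac hrb hrc htc hra Bb Bc k3 k2
  · -- c < b < a
    exact mid hS hbc.symm hab hrc hrb htb hra Bc Bb k3 k1

end Pool.Agent.Q98.LC
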